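import Pool.Agent.Helper52.GPM.S

namespace Pool.Agent.Helper4.GPM

open Relation Classical Pool.Agent.Helper18.GP Pool.Agent.Helper52.GPM

theorem mod_mFollow (h : mExit) : mFollow := by
  intro N V F hF w hw u hu hwu v hv c hc
  by_cases h1 : EqvGen (Fr F (Arc V w u)) v w
  · exact Or.inr (Or.inl h1)
  by_cases h2 : EqvGen (Fr F (Arc V w u)) v u
  · exact Or.inr (Or.inr h2)
  left
  have key : ∀ x y, F x y →
      ((x ∈ Arc V w u ∧ EqvGen (Fr F (Arc V w u)) v x) ↔
        (y ∈ Arc V w u ∧ EqvGen (Fr F (Arc V w u)) v y)) := by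
    intro x y hxy
    have hb := hF x y hxy
    constructor
    · rintro ⟨hx, hvx⟩
      by_cases hy : y ∈ Arc V w u
      · exact ⟨hy, hvx.trans _ _ _ (EqvGen.rel _ _ ⟨hxy, hx, hy⟩)⟩
      · rcases h N V w u x y hw hu hwu (Or.inl hb) hx hy with e | e
        · exact absurd (e ▸ hvx) h1
        · exact absurd (e ▸ hvx) h2
    · rintro ⟨hy, hvy⟩
      by_cases hx : x ∈ Arc V w u
      · exact ⟨hx, hvy.trans _ _ _ (EqvGen.symm _ _ (EqvGen.rel _ _ ⟨hxy, hx, hy⟩))⟩
      · rcases h N V w u y x hw hu hwu (Or.inr hb) hy hx with e | e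
        · exact absurd (e ▸ hvy) h1
        · exact absurd (e ▸ hvy) h2
  have key2 : ∀ x y, EqvGen F x y →
      ((x ∈ Arc V w u ∧ EqvGen (Fr F (Arc V w u)) v x) ↔
        (y ∈ Arc V w u ∧ EqvGen (Fr F (Arc V w u)) v y)) := by
    intro x y hxy
    induction hxy with
    | rel x y hxy => exact key x y hxy
    | refl x => exact Iff.rfl
    | symm x y _ ih => exact ih.symm
    | trans x y z _ _ ih1 ih2 => exact ih1.trans ih2
  exact (key2 v c hc).mp ⟨hv, EqvGen.refl _⟩

end Pool.Agent.Helper4.GPM
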